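import Pool.Agent.MQG.StmtsH

set_option autoImplicit false

/-!
# Row HTH of squad MQG
-/

namespace Pool.Agent.MQG.H86

open scoped InnerProductSpace InnerProduct Topology ComplexConjugate
open Complex Filter
open Pool.Agent.MQG

variable {α β γ κ ι : Type}

theorem l13_tens_one (T : Op γ) (ζ : L2 (α × β)) (z : L2 γ) :
    l13 (tens (1 : Op α) T) (tl e12 ζ z) = tl e12 ζ (T z) := by
  have h : (l13 (tens (1 : Op α) T) : Op (α × β × γ)) ∘L emb e12 z = emb e12 (T z) := by
    refine ext_tn fun x y => ?_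
    rw [ContinuousLinearMap.comp_apply, emb_apply, emb_apply, tl_e12, tl_e12, l13_tn, tens_tn,
      tl_e13]
    rfl
  exact DFunLike.congr_fun h ζ

theorem l12_tens_one (T : Op β) (ζ : L2 (α × γ)) (y : L2 β) :
    l12 (tens (1 : Op α) T) (tl e13 ζ y) = tl e13 ζ (T y) := by
  have h : (l12 (tens (1 : Op α) T) : Op (α × β × γ)) ∘L emb e13 y = emb e13 (T y) := by
    refine ext_tn fun x z => ?_
    rw [ContinuousLinearMap.comp_apply, emb_apply, emb_apply, tl_e13, tl_e13, l12_tn, tens_tn,
      tl_e12]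
    rfl
  exact DFunLike.congr_fun h ζ

theorem comm13 (T : Op γ) (A : Op (α × β)) :
    (l13 (tens (1 : Op α) T) * l12 A : Op (α × β × γ)) = l12 A * l13 (tens (1 : Op α) T) := by
  refine ext_tn3 fun x y z => ?_
  rw [mul_apply_eq_comp, mul_apply_eq_comp, l12_tn, l13_tens_one, l13_tn, tens_tn, tl_e13, l12_tn]
  rfl

theorem comm12 (T : Op β) (A : Op (α × γ)) :
    (l12 (tens (1 : Op α) T) * l13 A : Op (α × β × γ)) = l13 A * l12 (tens (1 : Op α) T) := by
  refine ext_tn3 fun x y z => ?_
  rw [mul_apply_eq_comp, mul_apply_eq_comp, l13_tn, l12_tens_one, l12_tn, tens_tn, tl_e12, l13_tn]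
  rfl

theorem l12_mul_l13_tens (S : Op β) (T : Op γ) :
    (l12 (tens (1 : Op α) S) * l13 (tens (1 : Op α) T) : Op (α × β × γ)) = l23 (tens S T) := by
  refine ext_tn3 fun x y z => ?_
  rw [mul_apply_eq_comp, l13_tn, tens_tn, tl_e13, l12_tn, tens_tn, tl_e12, l23_tn', tens_tn]
  rfl

theorem V_unitary {V : ℝ → Op ι} (hV : IsGroup V) (t : ℝ) : V t ∈ unitary (Op ι) := by
  rw [Unitary.mem_iff, hV.star_eq]
  exact ⟨hV.neg_mul t, hV.mul_neg t⟩

theorem tens_one_inv {V : ℝ → Op ι} (hV : IsGroup V) (t : ℝ) :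
    tens (1 : Op κ) (V t) * tens (1 : Op κ) (V (-t)) = 1 := by
  rw [← tens_mul, hV.mul_neg, one_mul, tens_one]

theorem conj_adapted {M : MU ι} {U : Op (κ × ι)} (hU : Adapted M.W U) (t : ℝ) :
    Adapted M.W (tens (1 : Op κ) (M.V t) * U * tens (1 : Op κ) (M.V (-t))) := by
  have hV := M.V_group
  refine ⟨?_, ?_⟩
  · exact mul_mem (mul_mem (tens_unitary (one_mem _) (V_unitary hV t)) hU.unit)
      (tens_unitary (one_mem _) (V_unitary hV (-t)))
  · -- abbreviations
    set a : Op (κ × ι × ι) := l12 (tens (1 : Op κ) (M.V t)) with ha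
    set a' : Op (κ × ι × ι) := l12 (tens (1 : Op κ) (M.V (-t))) with ha'
    set b : Op (κ × ι × ι) := l13 (tens (1 : Op κ) (M.V t)) with hb
    set b' : Op (κ × ι × ι) := l13 (tens (1 : Op κ) (M.V (-t))) with hb'
    set X : Op (κ × ι × ι) := l12 U with hX
    set Y : Op (κ × ι × ι) := l13 U with hY
    set Z : Op (κ × ι × ι) := l23 M.W with hZ
    have h1 : a' * b = b * a' := comm12 _ _
    have h2 : a' * Y = Y * a' := comm12 _ _
    have h3 : b * X = X * b := comm13 _ _
    have h4 : a' * b' = (l23 (tens (M.V (-t)) (M.V (-t))) : Op (κ × ι × ι)) :=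
      l12_mul_l13_tens _ _
    have h5 : a * b = (l23 (tens (M.V t) (M.V t)) : Op (κ × ι × ι)) := l12_mul_l13_tens _ _
    have h6 : a' * b' * Z = Z * (a' * b') := by
      rw [h4, hZ, ← l23_mul, ← l23_mul, M.inv]
    have h7 : a * b * Z = Z * (a * b) := by
      rw [h5, hZ, ← l23_mul, ← l23_mul, M.inv]
    have h8 : X * Y * Z = Z * X := hU.eq
    have h9 : b * b' = 1 := by
      rw [hb, hb', ← l13_mul, tens_one_inv hV, l13_one]
    rw [l12_mul, l12_mul, l13_mul, l13_mul]
    calc a * X * a' * (b * Y * b') * Z = a * X * (a' * b) * Y * b' * Z := by noncomm_ring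
      _ = a * (X * b) * (a' * Y) * b' * Z := by rw [h1]; noncomm_ring
      _ = a * b * X * Y * (a' * b' * Z) := by rw [h2, ← h3]; noncomm_ring
      _ = a * b * (X * Y * Z) * (a' * b') := by rw [h6]; noncomm_ring
      _ = (a * b * Z) * X * (a' * b') := by rw [h8]; noncomm_ring
      _ = Z * a * (b * X) * a' * b' := by rw [h7]; noncomm_ring
      _ = Z * a * X * (b * a') * b' := by rw [h3]; noncomm_ring
      _ = Z * (a * X * a') * (b * b') := by rw [← h1]; noncomm_ring
      _ = Z * (a * X * a') := by rw [h9, mul_one]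

theorem sl_conj {V : ℝ → Op ι} (hV : IsGroup V) (U : Op (κ × ι)) (t : ℝ) (u y : L2 ι) :
    sl (tens (1 : Op κ) (V t) * U * tens (1 : Op κ) (V (-t))) u y =
      sl U (V (-t) u) (V (-t) y) := by
  refine ContinuousLinearMap.ext fun z => ext_inner_left ℂ fun x => ?_
  rw [inner_sl, inner_sl, mul_apply_eq_comp, mul_apply_eq_comp, tens_tn,
    ← ContinuousLinearMap.adjoint_inner_left, ← ContinuousLinearMap.star_eq_adjoint, tens_star,
    tens_tn, hV.star_eq, star_one]
  rfl

/-- the values of a representation which maps slices to slices -/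
theorem lift_mem {U : Op (κ × ι)} (π : Al U →⋆ₙₐ[ℂ] Op κ)
    (h : ∀ u y, π (asl U u y) ∈ Aalg U) (a : Al U) : π a ∈ Aalg U := by
  let S : NonUnitalStarSubalgebra ℂ (Al U) := (Aalg U).comap π
  have hπ : Continuous π := AddMonoidHomClass.continuous_of_bound π 1 fun a => by
    rw [one_mul]
    exact NonUnitalStarAlgHom.norm_apply_le π a
  have hS : IsClosed (S : Set (Al U)) := (isClosed_Aalg U).preimage hπ
  have hiso : Isometry (val : Al U → Op κ) := AddMonoidHomClass.isometry_of_norm val norm_val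
  have hSc : IsClosed ((S.map val : NonUnitalStarSubalgebra ℂ (Op κ)) : Set (Op κ)) :=
    hiso.isClosedEmbedding.isClosedMap _ hS
  have h1 : Aalg U ≤ S.map val := by
    refine NonUnitalStarSubalgebra.topologicalClosure_minimal _ ?_ hSc
    refine NonUnitalStarAlgebra.adjoin_le ?_
    rintro _ ⟨u, y, rfl⟩
    exact ⟨asl U u y, h u y, rfl⟩
  obtain ⟨b, hb, hb'⟩ := h1 (val_mem a)
  have : b = a := val_injective hb'
  rw [← this]
  exact hb

theorem hth : HthStmt := by
  intro ι M κ WW hWW t
  obtain ⟨π, hπ⟩ := hWW.lift κ _ (conj_adapted hWW.adapted t)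
  have hπ' : ∀ u y, π (asl WW u y) = sl WW (M.V (-t) u) (M.V (-t) y) := fun u y => by
    rw [hπ, sl_conj M.V_group]
  have hm : ∀ a, π a ∈ Aalg WW := lift_mem π fun u y => by
    rw [hπ']
    exact sl_mem _ _ _
  refine ⟨{ toFun := fun a => mkA (π a) (hm a)
            map_smul' := fun r a => val_injective (by simp)
            map_zero' := val_injective (by simp)
            map_add' := fun a b => val_injective (by simp)
            map_mul' := fun a b => val_injective (by simp)
            map_star' := fun a => val_injective (by simp [map_star]) }, fun u y => ?_⟩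
  refine val_injective ?_
  change π (asl WW u y) = _
  rw [hπ', val_asl]

end Pool.Agent.MQG.H86
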