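import Pool.Agent.MQG.StmtsA

set_option autoImplicit false

/-!
# Row TTA of squad MQG
-/

namespace Pool.Agent.MQG.H86

open scoped InnerProductSpace InnerProduct Topology ComplexConjugate
open Complex Filter
open Pool.Agent.MQG

variable {α β γ κ ι : Type}

/-- `(a, η) ↦ (1 ⊗ conj a)* η` -/
noncomputable def adB : L2 β →L[ℂ] L2 (α × β) →L[ℂ] L2 α :=
  LinearMap.mkContinuous₂
    (LinearMap.mk₂ ℂ (fun a η => ((emb (Equiv.refl (α × β)) (star a))†) η)
      (fun a a' η => by rw [star_add, emb_add, map_add]; rfl)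
      (fun c a η => by
        rw [star_smul, emb_smul, map_smulₛₗ, RCLike.star_def, conj_conj]; rfl)
      (fun a η η' => map_add _ _ _)
      (fun c a η => map_smul _ _ _)) 1
    (fun a η => by
      have h1 := ((emb (Equiv.refl (α × β)) (star a))†).le_opNorm η
      have h2 := norm_emb_adj_le (Equiv.refl (α × β)) (star a)
      rw [norm_star] at h2
      calc _ ≤ ‖(emb (Equiv.refl (α × β)) (star a))†‖ * ‖η‖ := h1
        _ ≤ ‖a‖ * ‖η‖ := mul_le_mul_of_nonneg_right h2 (norm_nonneg _)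
        _ = 1 * ‖a‖ * ‖η‖ := by rw [one_mul])

theorem adB_apply (a : L2 β) (η : L2 (α × β)) :
    adB a η = ((emb (Equiv.refl (α × β)) (star a))†) η := rfl

/-- The trajectory `v`, defined by `(h | v w) = (h ⊗ f (conj w + I/2) | T (k w ⊗ g (w - I/2)))`. -/
theorem traj_v {V : ℝ → Op ι} (hV : IsGroup V) {T : Op (ι × ι)}
    (hT : ∀ t, T * tens (V t) (V t) = tens (V t) (V t) * T) {k f g : ℂ → L2 ι} (c d : ℂ)
    (hk : Traj V k) (hf : Traj V f) (hg : Traj V g) :
    Traj V fun w => ((emb (Equiv.refl (ι × ι)) (f (conj w + c)))†)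
      (T (tn (k w) (g (w + d)))) := by
  refine ⟨?_, fun t => ?_⟩
  · have h1 : Differentiable ℂ fun w : ℂ => star (f (conj w + c)) :=
      ((hf.shift hV c).cj).1
    have h2 : Differentiable ℂ fun w : ℂ => T (tn (k w) (g (w + d))) :=
      T.differentiable.comp (differentiable_tn hk.1 (hg.shift hV d).1)
    have h3 : Differentiable ℂ fun w : ℂ =>
        adB (star (f (conj w + c))) (T (tn (k w) (g (w + d)))) := fun z =>
      ((adB (α := ι) (β := ι)).differentiableAt.comp z (h1 z)).clm_apply (h2 z)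
    refine fun w => (h3 w).congr_of_eventuallyEq (Eventually.of_forall fun w => ?_)
    beta_reduce
    rw [adB_apply, star_star]
  · refine ext_inner_left ℂ fun h => ?_
    have hc : conj (t : ℂ) = (t : ℂ) := conj_ofReal t
    change ⟪h, ((emb (Equiv.refl (ι × ι)) (f (conj (t : ℂ) + c)))†)
      (T (tn (k t) (g (t + d))))⟫_ℂ = ⟪h, V t (((emb (Equiv.refl (ι × ι)) (f (conj (0 : ℂ) + c)))†)
      (T (tn (k 0) (g (0 + d)))))⟫_ℂ
    rw [hV.inner_right, inner_emb_adj, inner_emb_adj, hc, map_zero, zero_add, zero_add,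
      hf.shift_real hV, hg.shift_real hV, hk.2, ← tn_eq, ← tn_eq, ← tens_tn]
    have e1 : T (tens (V t) (V t) (tn (k 0) (g d))) =
        tens (V t) (V t) (T (tn (k 0) (g d))) := DFunLike.congr_fun (hT t) _
    rw [e1, ← ContinuousLinearMap.adjoint_inner_left, ← ContinuousLinearMap.star_eq_adjoint,
      tens_star, hV.star_eq, tens_tn, ← hV.apply_add, neg_add_cancel, hV.apply_zero]

/-- `(ζ₁₂ ⊗ u₃ | z ⊗ η) = (ζ | z ⊗ (1 ⊗ u)* η)` -/
theorem inner_tl_e12_tn (ζ : L2 (α × β)) (u : L2 γ) (z : L2 α) (η : L2 (β × γ)) :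
    ⟪tl e12 ζ u, tn z η⟫_ℂ = ⟪ζ, tn z (((emb (Equiv.refl (β × γ)) u)†) η)⟫_ℂ := by
  have h1 : (innerSL ℂ (tl e12 ζ u)) ∘L emb' (Equiv.refl (α × β × γ)) z =
      (innerSL ℂ ζ) ∘L emb' (Equiv.refl (α × β)) z ∘L ((emb (Equiv.refl (β × γ)) u)†) := by
    refine ext_tn fun a b => ?_
    rw [ContinuousLinearMap.comp_apply, ContinuousLinearMap.comp_apply,
      ContinuousLinearMap.comp_apply, emb'_apply, emb'_apply, innerSL_apply_apply,
      innerSL_apply_apply, tn_eq a b, adj_emb_tl, ← tn_eq, ← tn_eq, ← tn_eq, ← tl_e12, inner_tl,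
      tn_smul_right, inner_smul_right, mul_comm]
  exact DFunLike.congr_fun h1 η

theorem tta : TtaStmt := by
  intro ι M κ U Uh hU x z k k' u y hk hk'
  have hX : Total {ξ : L2 ι | ∃ f, Traj M.V f ∧ ξ = f 0} := total_traj M.V_group 0
  have key : co12 (l23 M.Wt * l12 Uh : Op (κ × ι × ι)) (tn x (star (k 0)))
        (tn z (star (k' 0))) =
      co12 (star (l12 U) * l23 M.W : Op (κ × ι × ι)) (tn x (k' (-(I / 2))))
        (tn z (k (I / 2))) := by
    refine hX.ext_op hX ?_
    rintro _ ⟨f, hf, rfl⟩ _ ⟨g, hg, rfl⟩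
    rw [inner_co12, inner_co12, mul_apply_eq_comp, mul_apply_eq_comp, tl_e12, tl_e12, tl_e12,
      tl_e12, l12_tn]
    -- the trajectory `v`
    have hv := traj_v M.V_group M.inv (I / 2) (-(I / 2)) hk hf hg
    set v : ℂ → L2 ι := fun w => ((emb (Equiv.refl (ι × ι)) (f (conj w + I / 2)))†)
      (M.W (tn (k w) (g (w + -(I / 2))))) with hvdef
    have hv0 : ∀ h : L2 ι, ⟪h, v 0⟫_ℂ = ⟪tn h (f (I / 2)), M.W (tn (k 0) (g (-(I / 2))))⟫_ℂ := by
      intro h
      rw [hvdef]
      change ⟪h, ((emb (Equiv.refl (ι × ι)) (f (conj (0 : ℂ) + I / 2)))†)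
        (M.W (tn (k 0) (g (0 + -(I / 2)))))⟫_ℂ = _
      rw [inner_emb_adj, map_zero, zero_add, zero_add, tn_eq h]
    have hvI : v (I / 2) = ((emb (Equiv.refl (ι × ι)) (f 0))†) (M.W (tn (k (I / 2)) (g 0))) := by
      rw [hvdef]
      change ((emb (Equiv.refl (ι × ι)) (f (conj (I / 2) + I / 2)))†)
        (M.W (tn (k (I / 2)) (g (I / 2 + -(I / 2))))) = _
      have e1 : conj (I / 2) + I / 2 = 0 := by
        rw [map_div₀, conj_I, map_ofNat]
        ring
      rw [e1, add_neg_cancel]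
    -- step 1
    have step1 : ∀ ζ : L2 (κ × ι), ⟪tn x (tn (star (k 0)) (f 0)),
        l23 M.Wt (tl e12 ζ (g 0))⟫_ℂ = ⟪tn x (star (v 0)), ζ⟫_ℂ := by
      intro ζ
      have h1 : (innerSL ℂ (tn x (tn (star (k 0)) (f 0)))) ∘L (l23 M.Wt) ∘L
          (emb (e12 : κ × ι × ι ≃ _) (g 0)) = innerSL ℂ (tn x (star (v 0))) := by
        refine ext_tn fun z' b => ?_
        rw [ContinuousLinearMap.comp_apply, ContinuousLinearMap.comp_apply, emb_apply,
          innerSL_apply_apply, innerSL_apply_apply, tl_e12, inner_l23, inner_tn,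
          inner_star_left (v 0) b, hv0]
        have h2 := M.manageable (star b) (k 0) _ _ (hf.shift M.V_group (I / 2))
          (hg.shift M.V_group (-(I / 2)))
        simp only [zero_add, neg_add_cancel, add_neg_cancel, star_star] at h2
        rw [h2, mul_comm]
      exact DFunLike.congr_fun h1 ζ
    rw [step1, hU x z v k' hv hk', hvI]
    rw [ContinuousLinearMap.star_eq_adjoint, ContinuousLinearMap.star_eq_adjoint,
      ContinuousLinearMap.adjoint_inner_right, ContinuousLinearMap.adjoint_inner_right, l12_tn,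
      l23_tn', inner_tl_e12_tn]
  have h1 := congrArg (fun S : Op ι => ⟪u, S y⟫_ℂ) key
  simp only [inner_co12, mul_apply_eq_comp, tl_e12] at h1
  exact h1

end Pool.Agent.MQG.H86
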